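import Mathlib

namespace Pool.Agent.Results.MP_38e169_lc.Perfect

open Finset

open Classical in
/-- A perfectly secure (threshold one) three-party distributed point function with domain `Fin N`,
output group `G` and keys of `l` bits; key generation uses a uniform seed from the finite
nonempty type `Ω`. -/
def IsDPF {G Ω : Type} [AddCommGroup G] [Fintype Ω] {N l : ℕ}
    (gen : Fin N → G → Ω → Fin 3 → (Fin l → Bool))
    (ev : Fin 3 → (Fin l → Bool) → Fin N → G) : Prop :=
  Nonempty Ω ∧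
  (∀ α β ω x, ∑ i, ev i (gen α β ω i) x = if x = α then β else 0) ∧
  (∀ i α β α' β' k, (univ.filter (fun ω => gen α β ω i = k)).card =
    (univ.filter (fun ω => gen α' β' ω i = k)).card)

/-- Integer factorisation of a matrix through at most `r` coordinates. -/
def LR {Y : Type} (F : Y → Y → ℤ) (r : ℕ) : Prop :=
  ∃ (H : Type) (_ : Fintype H) (u v : Y → H → ℤ), Fintype.card H ≤ r ∧
    ∀ y j, ∑ h, u y h * v j h = F y j

section lr
variable {Y : Type}

lemma LR.mono {F : Y → Y → ℤ} {r s : ℕ} (h : LR F r) (hrs : r ≤ s) : LR F s := by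
  obtain ⟨H, i, u, v, h1, h2⟩ := h
  exact ⟨H, i, u, v, h1.trans hrs, h2⟩

lemma LR.one : LR (fun _ _ : Y => 1) 1 :=
  ⟨Unit, inferInstance, fun _ _ => 1, fun _ _ => 1, by simp, by simp⟩

lemma LR.mul {F F' : Y → Y → ℤ} {r s : ℕ} (h : LR F r) (h' : LR F' s) :
    LR (fun y j => F y j * F' y j) (r * s) := by
  obtain ⟨H, i, u, v, h1, h2⟩ := h
  obtain ⟨H', i', u', v', h1', h2'⟩ := h'
  refine ⟨H × H', inferInstance, fun y z => u y z.1 * u' y z.2, fun y z => v y z.1 * v' y z.2,
    by rw [Fintype.card_prod]; gcongr, fun y j => ?_⟩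
  beta_reduce
  rw [← h2, ← h2', sum_mul_sum, Fintype.sum_prod_type]
  exact sum_congr rfl fun _ _ => sum_congr rfl fun _ _ => by ring

lemma LR.pow {F : Y → Y → ℤ} {r : ℕ} (h : LR F r) (k : ℕ) :
    LR (fun y j => F y j ^ k) (r ^ k) := by
  induction k with
  | zero => simpa using LR.one
  | succ k ih => simpa [pow_succ] using ih.mul h

lemma LR.onesub {F : Y → Y → ℤ} {r : ℕ} (h : LR F r) : LR (fun y j => 1 - F y j) (r + 1) := by
  obtain ⟨H, i, u, v, h1, h2⟩ := h
  refine ⟨Option H, inferInstance, fun y z => z.elim 1 (fun h => - u y h),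
    fun y z => z.elim 1 (fun h => v y h), by simpa using h1, fun y j => ?_⟩
  beta_reduce
  rw [Fintype.sum_option, ← h2]
  simp [sub_eq_add_neg]

lemma lr_choose {U : Type} [Fintype U] [DecidableEq U] (S : Y → Finset U) (d : ℕ) :
    LR (fun y j => (((S y \ S j).card + d).choose d : ℕ)) ((Fintype.card U + d) ^ d) := by
  classical
  refine ⟨powersetCard d (univ : Finset (U ⊕ Fin d)), inferInstance,
    fun y W => if W.1 ⊆ (S y).disjSum univ then 1 else 0,
    fun j W => if W.1 ⊆ (S j)ᶜ.disjSum univ then 1 else 0, ?_, ?_⟩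
  · rw [Fintype.card_coe, card_powersetCard]
    simp only [card_univ, Fintype.card_sum, Fintype.card_fin]
    exact Nat.choose_le_pow _ _
  · intro y j
    rw [sum_coe_sort (powersetCard d (univ : Finset (U ⊕ Fin d)))
      (fun W => (if W ⊆ (S y).disjSum univ then (1 : ℤ) else 0) *
      (if W ⊆ (S j)ᶜ.disjSum univ then (1 : ℤ) else 0))]
    simp only [ite_zero_mul_ite_zero, mul_one, sum_boole]
    congr 1
    have : ((S y \ S j).card + d).choose d =
        (powersetCard d ((S y \ S j).disjSum (univ : Finset (Fin d)))).card := by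
      rw [card_powersetCard, card_disjSum]; simp
    rw [this]
    congr 1
    ext W
    simp only [mem_filter, mem_powersetCard, subset_univ, true_and]
    constructor
    · rintro ⟨h1, h2, h3⟩
      refine ⟨fun z hz => ?_, h1⟩
      have a2 := h2 hz
      have a3 := h3 hz
      rcases z with z | z <;> simp_all
    · rintro ⟨h1, h2⟩
      refine ⟨h2, fun z hz => ?_, fun z hz => ?_⟩ <;>
      · have a1 := h1 hz
        rcases z with z | z <;> simp_all

lemma dvd_of_not (p c e : ℕ) (hp : p.Prime) (h : ¬ p ∣ (e + (p ^ c - 1)).choose (p ^ c - 1)) :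
    p ^ c ∣ e := by
  obtain ⟨d, hd⟩ : ∃ d, p ^ c = d + 1 := ⟨p ^ c - 1, by
    have := Nat.pos_of_ne_zero (pow_ne_zero c hp.ne_zero); omega⟩
  have h0 : p ^ c - 1 = d := by omega
  rw [h0] at h
  have h1 : (e + d).choose (d + 1) * (d + 1) = (e + d).choose d * e := by
    rw [Nat.choose_succ_right_eq]; congr 1; omega
  have h2 : p ^ c ∣ (e + d).choose d * e := by rw [← h1, hd]; exact Dvd.intro_left _ rfl
  exact (Nat.Coprime.pow_left c ((Nat.Prime.coprime_iff_not_dvd hp).2 h)).dvd_of_dvd_mul_left h2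

/-- One prime: a test that is one on the diagonal and detects divisibility by a prime power. -/
lemma test {U : Type} [Fintype U] [DecidableEq U] (S : Y → Finset U) (Q B p : ℕ) (hQ : 1 ≤ Q)
    (hp : p.Prime) (hB : p ≤ B) : ∃ (F : Y → Y → ℤ) (c : ℕ),
      LR F ((Fintype.card U + B * Q) ^ (B * Q)) ∧ Q < p ^ c ∧ (∀ y, F y y = 1) ∧
      ∀ y j, ¬ (p : ℤ) ∣ F y j → p ^ c ∣ (S y \ S j).card := by
  have l1 : Q < p ^ (Nat.log p Q + 1) := Nat.lt_pow_succ_log_self hp.one_lt Q
  have l2 : p ^ (Nat.log p Q + 1) ≤ B * Q := by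
    have := Nat.pow_log_le_self p (show Q ≠ 0 by omega)
    rw [pow_succ, mul_comm]
    exact Nat.mul_le_mul hB this
  refine ⟨_, Nat.log p Q + 1, (lr_choose S (p ^ (Nat.log p Q + 1) - 1)).mono ?_, l1, ?_, ?_⟩
  · calc _ ≤ (Fintype.card U + B * Q) ^ (p ^ (Nat.log p Q + 1) - 1) :=
          Nat.pow_le_pow_left (by omega) _
      _ ≤ _ := Nat.pow_le_pow_right (by omega) (by omega)
  · intro y; simp
  · intro y j h
    exact dvd_of_not p _ _ hp (fun h' => h (Int.natCast_dvd_natCast.2 h'))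

lemma family {U : Type} [Fintype U] [DecidableEq U] (S : Y → Finset U) (Q B q b : ℕ)
    (hQ : 1 ≤ Q) (hq : q.Prime) (hb : Q < q ^ b) (hS : ∀ y j, (S y \ S j).card ≤ Q ^ 2)
    (n : ℕ) : n ≠ 0 → n ≤ B → n < q → ∃ F : Y → Y → ℤ,
      LR F (((Fintype.card U + B * Q) ^ (B * Q)) ^ n) ∧ (∀ y, F y y = 1) ∧
      ∀ y j, (S y \ S j).card ≠ 0 → q ^ b ∣ (S y \ S j).card → (n : ℤ) ∣ F y j := by
  induction n using induction_on_primes with
  | zero => intro h; exact absurd rfl h
  | one =>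
    intro _ hB _
    refine ⟨fun _ _ => 1, LR.one.mono ?_, fun _ => rfl, fun _ _ _ _ => by simp⟩
    apply Nat.one_le_pow
    have : 0 < B * Q := Nat.mul_pos (by omega) hQ
    positivity
  | prime_mul p a hp ih =>
    intro h0 hB hlt
    have ha : a ≠ 0 := by rintro rfl; simp at h0
    have h2 := hp.two_le
    have ha1 : 1 ≤ a := Nat.pos_of_ne_zero ha
    have hpa : a + 1 ≤ p * a := by nlinarith
    have hpp : p ≤ p * a := Nat.le_mul_of_pos_right _ ha1
    obtain ⟨F, h1, hd, ho⟩ := ih ha (by omega) (by omega)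
    obtain ⟨F', c, h1', hc, hd', ho'⟩ := test S Q B p hQ hp (by omega)
    refine ⟨fun y j => F' y j * F y j, (h1'.mul h1).mono ?_, fun y => by simp [hd, hd'], ?_⟩
    · rw [← pow_succ']
      apply Nat.pow_le_pow_right _ hpa
      have : 0 < B * Q := Nat.mul_pos (by omega) hQ
      positivity
    · intro y j hne hdv
      push_cast
      refine mul_dvd_mul ?_ (ho y j hne hdv)
      by_contra hcon
      have d2 := ho' y j hcon
      have hco : Nat.Coprime (p ^ c) (q ^ b) :=
        Nat.Coprime.pow _ _ ((Nat.coprime_primes hp hq).2 (by omega))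
      have := Nat.le_of_dvd (Nat.pos_of_ne_zero hne) (hco.mul_dvd_of_dvd_of_dvd d2 hdv)
      have h3 := hS y j
      have : Q * Q < p ^ c * q ^ b := Nat.mul_lt_mul'' hc hb
      nlinarith

end lr

section scheme
variable {G : Type} [AddCommGroup G] (q : ℕ) [NeZero q]

/-- Functions on `ZMod q` with sum zero. -/
def M0 (G : Type) [AddCommGroup G] (q : ℕ) [NeZero q] : AddSubgroup (ZMod q → G) where
  carrier := {f | ∑ t, f t = 0}
  add_mem' := by
    intro a b ha hb
    simp only [Set.mem_setOf_eq, Pi.add_apply, sum_add_distrib] at *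
    rw [ha, hb, add_zero]
  zero_mem' := by simp
  neg_mem' := by
    intro a ha
    simp only [Set.mem_setOf_eq, Pi.neg_apply, sum_neg_distrib] at *
    rw [ha, neg_zero]

def sh (f : M0 G q) : M0 G q := ⟨fun t => f.1 (t + 1), by
  have := f.2
  show ∑ t, f.1 (t + 1) = 0
  rw [← (show ∑ t, f.1 t = 0 from this)]
  exact Equiv.sum_comp (Equiv.addRight (1 : ZMod q)) f.1⟩

def kap (β : G) (z : ZMod q) : M0 G q := ⟨Pi.single z β - Pi.single (z - 1) β, by
  show ∑ t, (Pi.single z β - Pi.single (z - 1) β : ZMod q → G) t = 0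
  simp [sum_sub_distrib]⟩

lemma sh_inj : Function.Injective (sh (G := G) q) := by
  intro f g h
  ext t
  have := congrFun (congrArg Subtype.val h) (t - 1)
  simpa [sh] using this

lemma sh_add_inj [Fintype G] [Fact q.Prime] (h2 : (2 : ZMod q) ≠ 0)
    (hco : Nat.Coprime q (Fintype.card G)) :
    Function.Injective (fun f : M0 G q => f + sh q f) := by
  have key : ∀ f : M0 G q, f + sh q f = 0 → f = 0 := by
    intro f hf
    have h1 : ∀ t, f.1 (t + 1) = - f.1 t := fun t => by
      have := congrFun (congrArg Subtype.val hf) t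
      exact eq_neg_of_add_eq_zero_right this
    have h3 : ∀ k : ℕ, f.1 (2 * k) = f.1 0 := by
      intro k
      induction k with
      | zero => simp
      | succ k ih =>
        have : (2 : ZMod q) * ((k + 1 : ℕ) : ZMod q) = 2 * k + 1 + 1 := by push_cast; ring
        rw [this, h1, h1, neg_neg, ih]
    have h4 : ∀ t, f.1 t = f.1 0 := by
      intro t
      have := h3 (2⁻¹ * t).val
      rwa [ZMod.natCast_zmod_val, ← mul_assoc, mul_inv_cancel₀ h2, one_mul] at this
    have h5 : q • f.1 0 = 0 := by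
      have : ∑ t, f.1 t = 0 := f.2
      rw [sum_congr rfl (fun t _ => h4 t)] at this
      simpa using this
    have h6 : f.1 0 = 0 := by
      have a1 := addOrderOf_dvd_of_nsmul_eq_zero h5
      have a2 : addOrderOf (f.1 0) ∣ Fintype.card G := addOrderOf_dvd_card
      exact AddMonoid.addOrderOf_eq_one_iff.1 (Nat.eq_one_of_dvd_coprimes hco a1 a2)
    ext t
    rw [h4, h6]; rfl
  intro f g h
  have : f - g = 0 := by
    apply key
    have e : sh q (f - g) = sh q f - sh q g := rfl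
    rw [e]
    have h' : f + sh q f = g + sh q g := h
    calc f - g + (sh q f - sh q g) = (f + sh q f) - (g + sh q g) := by abel
      _ = 0 := by rw [h', sub_self]
  exact sub_eq_zero.1 this

variable {Y H K : Type} [Fintype H] [Fintype K] (u v : Y → K → ℤ) (a b : Y → H → ℤ)

def ip (w : K → ZMod q) (x : Y) : ZMod q := ∑ k, w k * (v x k : ZMod q)

def gen0 (α : Y) (β : G) (ω : (K → ZMod q) × (H → M0 G q)) :
    Fin 3 → (K → ZMod q) × (H → M0 G q) :=
  ![(ω.1, fun h => sh q (ω.2 h - a α h • kap q β (ip q v ω.1 α))),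
    (fun k => ω.1 k + u α k,
      fun h => a α h • kap q β (ip q v ω.1 α) - (ω.2 h + sh q (ω.2 h))),
    (fun k => ω.1 k + u α k + u α k, ω.2)]

def ev0 (k : (K → ZMod q) × (H → M0 G q)) (x : Y) : G :=
  ∑ h, b x h • (k.2 h).1 (ip q v k.1 x)

lemma ip_add (w : K → ZMod q) (α x : Y) :
    ip q v (fun k => w k + u α k) x = ip q v w x + ((∑ k, u α k * v x k : ℤ) : ZMod q) := by
  simp [ip, add_mul, sum_add_distrib]

lemma correct0 (α : Y) (β : G) (ω : (K → ZMod q) × (H → M0 G q)) (x : Y)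
    (hτ : ((∑ k, u α k * v x k : ℤ) : ZMod q) = 0 ∨ ((∑ k, u α k * v x k : ℤ) : ZMod q) = 1) :
    ∑ i, ev0 q v b (gen0 q u v a α β ω i) x = (∑ h, a α h * b x h) •
      ((kap q β (ip q v ω.1 α)).1 (ip q v ω.1 x + ((∑ k, u α k * v x k : ℤ) : ZMod q)) -
        (kap q β (ip q v ω.1 α)).1 (ip q v ω.1 x + 1)) := by
  have e2 := ip_add q u v (fun k => ω.1 k + u α k) α x
  have e1 := ip_add q u v ω.1 α x
  rw [e1] at e2
  simp only [Fin.sum_univ_three, gen0, ev0, Matrix.cons_val_zero, Matrix.cons_val_one,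
    Matrix.cons_val]
  rw [e1, e2, ← sum_add_distrib, ← sum_add_distrib, sum_smul]
  refine sum_congr rfl fun h _ => ?_
  generalize kap q β (ip q v ω.1 α) = κ
  generalize ω.2 h = c
  generalize ip q v ω.1 x = z
  have s1 : ∀ t, (sh q (c - a α h • κ)).1 t = c.1 (t + 1) - a α h • κ.1 (t + 1) := fun t => rfl
  have s2 : ∀ t, (a α h • κ - (c + sh q c)).1 t = a α h • κ.1 t - (c.1 t + c.1 (t + 1)) :=
    fun t => rfl
  rw [s1, s2]
  rcases hτ with h | h <;> rw [h]
  · simp only [add_zero]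
    module
  · module

lemma bij0 [Fintype G] [DecidableEq G] [DecidableEq H] [DecidableEq K] [Fact q.Prime]
    (h2 : (2 : ZMod q) ≠ 0) (hco : Nat.Coprime q (Fintype.card G)) (α : Y) (β : G) (i : Fin 3) :
    Function.Injective (fun ω => gen0 q u v a α β ω i) := by
  rintro ⟨w, c⟩ ⟨w', c'⟩ h
  fin_cases i
  · simp only [gen0, Fin.zero_eta, Matrix.cons_val_zero, Prod.mk.injEq] at h ⊢
    obtain ⟨rfl, h⟩ := h
    refine ⟨rfl, funext fun t => ?_⟩
    exact sub_left_injective (sh_inj q (congrFun h t))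
  · simp only [gen0, Fin.mk_one, Matrix.cons_val_one, Matrix.cons_val_zero, Prod.mk.injEq] at h ⊢
    obtain ⟨h1, h⟩ := h
    have : w = w' := funext fun k => add_right_cancel (congrFun h1 k)
    subst this
    refine ⟨rfl, funext fun t => ?_⟩
    exact sh_add_inj q h2 hco (sub_right_injective (congrFun h t))
  · simp only [gen0, Fin.reduceFinMk, Matrix.cons_val, Prod.mk.injEq] at h ⊢
    exact ⟨funext fun k => add_right_cancel (add_right_cancel (congrFun h.1 k)), h.2⟩

end scheme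

lemma dpf_of {G : Type} [AddCommGroup G] [Fintype G] (q : ℕ) (hq : q.Prime) (h3 : 3 ≤ q)
    (hco : Nat.Coprime q (Fintype.card G)) (N r s : ℕ) (T F : Fin N → Fin N → ℤ)
    (hT : LR T r) (hF : LR F s) (h01 : ∀ y j, (T y j : ZMod q) = 0 ∨ (T y j : ZMod q) = 1)
    (hd : ∀ y, (T y y : ZMod q) = 0 ∧ F y y = 1)
    (ho : ∀ y j, y ≠ j → (T y j : ZMod q) = 1 ∨ (Fintype.card G : ℤ) ∣ F y j) :
    ∃ (Ω : Type) (_ : Fintype Ω)
      (gen : Fin N → G → Ω → Fin 3 → (Fin (q * r + Fintype.card G * q * s) → Bool))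
      (ev : Fin 3 → (Fin (q * r + Fintype.card G * q * s) → Bool) → Fin N → G), IsDPF gen ev := by
  classical
  haveI : Fact q.Prime := ⟨hq⟩
  haveI : NeZero q := ⟨hq.ne_zero⟩
  obtain ⟨K, iK, u, v, cK, hu⟩ := hT
  obtain ⟨H, iH, a, b, cH, ha⟩ := hF
  have h2 : (2 : ZMod q) ≠ 0 := by
    intro h
    have : ((2 : ℕ) : ZMod q) = 0 := by exact_mod_cast h
    rw [ZMod.natCast_eq_zero_iff] at this
    have := Nat.le_of_dvd (by norm_num) this
    omega
  have hc : Fintype.card ((K → ZMod q) × (H → M0 G q)) ≤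
      Fintype.card (Fin (q * r + Fintype.card G * q * s) → Bool) := by
    have c1 : Fintype.card (M0 G q) ≤ (2 ^ Fintype.card G) ^ q := by
      calc _ ≤ Fintype.card (ZMod q → G) := Fintype.card_subtype_le _
        _ = Fintype.card G ^ q := by simp
        _ ≤ _ := Nat.pow_le_pow_left Nat.lt_two_pow_self.le _
    simp only [Fintype.card_prod, Fintype.card_fun, ZMod.card, Fintype.card_bool, Fintype.card_fin]
    rw [pow_add, pow_mul, pow_mul, pow_mul]
    apply Nat.mul_le_mul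
    · calc _ ≤ (2 ^ q) ^ Fintype.card K := Nat.pow_le_pow_left Nat.lt_two_pow_self.le _
        _ ≤ _ := Nat.pow_le_pow_right (by positivity) cK
    · calc _ ≤ ((2 ^ Fintype.card G) ^ q) ^ Fintype.card H := Nat.pow_le_pow_left c1 _
        _ ≤ _ := Nat.pow_le_pow_right (by positivity) cH
  obtain ⟨enc⟩ := Function.Embedding.nonempty_of_card_le hc
  refine ⟨(K → ZMod q) × (H → M0 G q), inferInstance,
    fun α β ω i => enc (gen0 q u v a α β ω i),
    fun _ k x => ev0 q v b (Function.invFun enc k) x, inferInstance, ?_, ?_⟩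
  · intro α β ω x
    simp only [Function.leftInverse_invFun enc.injective _]
    rw [correct0 q u v a b α β ω x (by rw [hu]; exact h01 _ _), hu, ha]
    by_cases hx : x = α
    · subst hx
      rw [(hd x).1, (hd x).2, if_pos rfl, add_zero, one_smul]
      generalize ip q v ω.1 x = z
      have n1 : z ≠ z - 1 := fun h => one_ne_zero (by linear_combination h : (1 : ZMod q) = 0)
      have n2 : z + 1 ≠ z := fun h => one_ne_zero (by linear_combination h : (1 : ZMod q) = 0)
      have n3 : z + 1 ≠ z - 1 := fun h => h2 (by linear_combination h)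
      simp [kap, n1, n2, n3]
    · rw [if_neg hx]
      rcases ho α x (Ne.symm hx) with h | ⟨t, ht⟩
      · rw [h, sub_self, smul_zero]
      · rw [ht, mul_comm, mul_smul, natCast_zsmul, card_nsmul_eq_zero, smul_zero]
  · intro i α β α' β' k
    have key : ∀ α β, (univ.filter (fun ω => enc (gen0 q u v a α β ω i) = k)).card =
        (univ.filter (fun ω => enc ω = k)).card := by
      intro α β
      have hb : Function.Bijective (fun ω => gen0 q u v a α β ω i) :=
        (bij0 q u v a h2 hco α β i).bijective_of_finite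
      exact card_bijective _ hb (fun ω => by simp)
    convert (key α β).trans (key α' β').symm

lemma params (N : ℕ) (hN : 17 ≤ N) : ∃ a : ℕ, 1 ≤ a ∧ N ≤ 2 ^ (a * 4 ^ a) ∧
    ((a * 2 ^ a : ℕ) : ℝ) ≤ 8 * Real.sqrt (Real.log N * Real.log (Real.log N)) := by
  classical
  have hex : ∃ a : ℕ, N ≤ 2 ^ (a * 4 ^ a) := by
    refine ⟨N, (Nat.lt_two_pow_self).le.trans (Nat.pow_le_pow_right (by norm_num) ?_)⟩
    exact Nat.le_mul_of_pos_right _ (by positivity)
  have h1 := Nat.find_spec hex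
  have hmin := fun b => Nat.find_min hex (m := b)
  set a := Nat.find hex with ha
  have ha2 : 2 ≤ a := by
    by_contra h
    have : a = 0 ∨ a = 1 := by omega
    rcases this with h0 | h0 <;> rw [h0] at h1 <;> norm_num at h1 <;> omega
  refine ⟨a, by omega, h1, ?_⟩
  obtain ⟨b, hb⟩ : ∃ b, a = b + 1 := ⟨a - 1, by omega⟩
  have hb1 : 1 ≤ b := by omega
  have h2 : 2 ^ (b * 4 ^ b) < N := by
    have := hmin b (by omega)
    omega
  have l2 : (1 : ℝ) / 2 ≤ Real.log 2 := by have := Real.log_two_gt_d9; linarith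
  have hb' : (1 : ℝ) ≤ b := by exact_mod_cast hb1
  have h3 : (b : ℝ) * 4 ^ b / 2 ≤ Real.log N := by
    have : Real.log ((2 : ℝ) ^ (b * 4 ^ b)) ≤ Real.log N := by
      apply Real.log_le_log (by positivity)
      exact_mod_cast h2.le
    rw [Real.log_pow] at this
    push_cast at this
    have h0 : (0 : ℝ) ≤ b * 4 ^ b := by positivity
    nlinarith
  have h4e : (4 : ℝ) ^ b = 2 ^ b * 2 ^ b := by rw [← mul_pow]; norm_num
  have h2b : (2 : ℝ) ≤ 2 ^ b := by
    calc (2 : ℝ) = 2 ^ 1 := by norm_num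
      _ ≤ 2 ^ b := pow_le_pow_right₀ (by norm_num) hb1
  have h4 : (b : ℝ) / 2 ≤ Real.log (Real.log N) := by
    have h5 : (2 : ℝ) ^ b ≤ Real.log N := by
      refine le_trans ?_ h3
      rw [h4e]
      have : (2 : ℝ) ^ b * 2 ≤ 2 ^ b * 2 ^ b := by gcongr
      nlinarith
    have := Real.log_le_log (by positivity) h5
    rw [Real.log_pow] at this
    nlinarith
  have h6 : (b : ℝ) * 2 ^ b / 2 ≤ Real.sqrt (Real.log N * Real.log (Real.log N)) := by
    apply Real.le_sqrt_of_sq_le
    calc ((b : ℝ) * 2 ^ b / 2) ^ 2 = (b * 4 ^ b / 2) * (b / 2) := by rw [h4e]; ring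
      _ ≤ _ := by
        apply mul_le_mul h3 h4 (by positivity)
        exact le_trans (by positivity) h3
  rw [hb]
  push_cast
  rw [pow_succ]
  nlinarith

lemma fin {G : Type} [AddCommGroup G] [Fintype G] : ∃ C : ℕ, ∀ N a : ℕ, 1 ≤ a →
    N ≤ 2 ^ (a * 4 ^ a) → ∃ l : ℕ, l ≤ 2 ^ (C * (a * 2 ^ a)) ∧ ∃ (Ω : Type) (_ : Fintype Ω)
      (gen : Fin N → G → Ω → Fin 3 → (Fin l → Bool))
      (ev : Fin 3 → (Fin l → Bool) → Fin N → G), IsDPF gen ev := by
  classical
  set n := Fintype.card G with hn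
  have hn0 : 0 < n := Fintype.card_pos
  obtain ⟨q, hqn, hq⟩ := Nat.exists_infinite_primes (n + 2)
  refine ⟨(q + 4) * q * q + 3 * q, fun N a ha hN => ?_⟩
  haveI : Fact q.Prime := ⟨hq⟩
  set Q := 2 ^ a with hQ
  have hQ2 : 2 ≤ Q := by
    calc 2 = 2 ^ 1 := by norm_num
      _ ≤ 2 ^ a := Nat.pow_le_pow_right (by norm_num) ha
  have hc : Fintype.card (Fin N) ≤ Fintype.card (Fin (Q ^ 2) → Fin Q) := by
    rw [Fintype.card_fun, Fintype.card_fin, Fintype.card_fin, Fintype.card_fin, hQ, ← pow_mul,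
      ← pow_mul, mul_comm a 2, pow_mul 2 2 a]
    exact hN
  obtain ⟨ι⟩ := Function.Embedding.nonempty_of_card_le hc
  let S : Fin N → Finset (Fin (Q ^ 2) × Fin Q) := fun y => univ.image (fun t => (t, ι y t))
  have hS : ∀ y j, (S y \ S j).card ≤ Q ^ 2 := fun y j => by
    calc _ ≤ (S y).card := card_le_card sdiff_subset
      _ ≤ (univ : Finset (Fin (Q ^ 2))).card := card_image_le
      _ = _ := by simp
  have hS0 : ∀ y j, y ≠ j → (S y \ S j).card ≠ 0 := by
    intro y j hne h0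
    rw [card_eq_zero, sdiff_eq_empty_iff_subset] at h0
    apply hne
    apply ι.injective
    funext t
    have := h0 (mem_image_of_mem (fun t => (t, ι y t)) (mem_univ t))
    obtain ⟨s, -, hs⟩ := mem_image.1 this
    simp only [Prod.mk.injEq] at hs
    obtain ⟨rfl, hs⟩ := hs
    exact hs.symm
  obtain ⟨T, b, hT, hb, hTd, hTo⟩ := test S Q q q (by omega) hq le_rfl
  obtain ⟨F, hF, hFd, hFo⟩ := family S Q q q b (by omega) hq hb hS n (by omega) (by omega)
    (by omega)
  have hco : Nat.Coprime q n := (Nat.Prime.coprime_iff_not_dvd hq).2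
    (fun h => by have := Nat.le_of_dvd hn0 h; omega)
  have hq1 : q - 1 ≠ 0 := by omega
  refine ⟨_, ?_, dpf_of q hq (by omega) hco N _ _ _ F (hT.pow (q - 1)).onesub hF ?_ ?_ ?_⟩
  · simp only [Fintype.card_prod, Fintype.card_fin]
    rw [← hn]
    set D := (Q ^ 2 * Q + q * Q) ^ (q * Q) with hD
    have d1 : D ≤ 2 ^ ((q + 4) * q * (a * Q)) := by
      have e1 : q + 1 ≤ Q ^ (q + 1) :=
        (Nat.lt_two_pow_self).le.trans (Nat.pow_le_pow_left hQ2 _)
      have e2 : Q ≤ Q ^ 2 * Q := Nat.le_mul_of_pos_left _ (by positivity)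
      have e3 : Q ^ 2 * Q + q * Q ≤ Q ^ (q + 4) := by
        calc Q ^ 2 * Q + q * Q ≤ (q + 1) * (Q ^ 2 * Q) := by nlinarith
          _ ≤ Q ^ (q + 1) * (Q ^ 2 * Q) := by gcongr
          _ = _ := by ring
      calc D ≤ (Q ^ (q + 4)) ^ (q * Q) := Nat.pow_le_pow_left e3 _
        _ = ((2 ^ a) ^ (q + 4)) ^ (q * Q) := by rw [← hQ]
        _ = _ := by rw [← pow_mul, ← pow_mul]; congr 1; ring
    have d0 : 1 ≤ D := Nat.one_le_pow _ _ (by positivity)
    have d2 : D ^ (q - 1) ≤ D ^ q := Nat.pow_le_pow_right d0 (by omega)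
    have d3 : D ^ n ≤ D ^ q := Nat.pow_le_pow_right d0 (by omega)
    have d4 : 1 ≤ D ^ q := Nat.one_le_pow _ _ d0
    have d5 : D ^ q ≤ 2 ^ ((q + 4) * q * q * (a * Q)) := by
      calc D ^ q ≤ (2 ^ ((q + 4) * q * (a * Q))) ^ q := Nat.pow_le_pow_left d1 _
        _ = _ := by rw [← pow_mul]; congr 1; ring
    have d6 : q ^ 3 ≤ 2 ^ (3 * q * (a * Q)) := by
      have : 1 ≤ a * Q := Nat.mul_pos ha (by omega)
      calc q ^ 3 ≤ (2 ^ q) ^ 3 := Nat.pow_le_pow_left Nat.lt_two_pow_self.le _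
        _ = 2 ^ (3 * q * 1) := by rw [← pow_mul]; congr 1; ring
        _ ≤ _ := Nat.pow_le_pow_right (by norm_num) (by gcongr)
    calc q * (D ^ (q - 1) + 1) + n * q * D ^ n ≤ q * (D ^ q + D ^ q) + n * q * D ^ q := by gcongr
      _ = (n + 2) * q * 1 * D ^ q := by ring
      _ ≤ q * q * q * D ^ q := by gcongr; omega
      _ = q ^ 3 * D ^ q := by ring
      _ ≤ 2 ^ (3 * q * (a * Q)) * 2 ^ ((q + 4) * q * q * (a * Q)) := by gcongr
      _ = _ := by rw [← pow_add]; congr 1; ring
  · intro y j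
    push_cast
    by_cases h : (T y j : ZMod q) = 0
    · right; rw [h, zero_pow hq1, sub_zero]
    · left; rw [ZMod.pow_card_sub_one_eq_one h, sub_self]
  · intro y
    simp [hTd, hFd]
  · intro y j hne
    by_cases h : (q : ℤ) ∣ T y j
    · left
      push_cast
      rw [(ZMod.intCast_zmod_eq_zero_iff_dvd _ _).2 h, zero_pow hq1, sub_zero]
    · right
      exact hFo y j (hS0 y j hne) (hTo y j h)

theorem result (G : Type) [AddCommGroup G] [Fintype G] : ∃ C : ℝ, ∀ N : ℕ, 17 ≤ N →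
    ∃ l : ℕ, (l : ℝ) ≤ Real.exp (C * Real.sqrt (Real.log N * Real.log (Real.log N))) ∧
      ∃ (Ω : Type) (_ : Fintype Ω) (gen : Fin N → G → Ω → Fin 3 → (Fin l → Bool))
        (ev : Fin 3 → (Fin l → Bool) → Fin N → G), IsDPF gen ev := by
  obtain ⟨C, hC⟩ := fin (G := G)
  refine ⟨8 * C, fun N hN => ?_⟩
  obtain ⟨a, ha, h1, h2⟩ := params N hN
  obtain ⟨l, hl, h⟩ := hC N a ha h1
  refine ⟨l, ?_, h⟩
  have l3 : Real.log 2 ≤ 1 := by have := Real.log_two_lt_d9; linarith
  have h7 : (((2 ^ (C * (a * 2 ^ a)) : ℕ) : ℝ)) =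
      Real.exp ((C * (a * 2 ^ a) : ℕ) * Real.log 2) := by
    rw [Real.exp_nat_mul, Real.exp_log (by norm_num)]
    push_cast
    rfl
  calc (l : ℝ) ≤ ((2 ^ (C * (a * 2 ^ a)) : ℕ) : ℝ) := by exact_mod_cast hl
    _ = _ := h7
    _ ≤ _ := by
      apply Real.exp_le_exp.2
      rw [Nat.cast_mul]
      have h0 : (0 : ℝ) ≤ C * ((a * 2 ^ a : ℕ) : ℝ) := by positivity
      have h3 : (C : ℝ) * ((a * 2 ^ a : ℕ) : ℝ) ≤
          C * (8 * Real.sqrt (Real.log N * Real.log (Real.log N))) := by gcongr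
      nlinarith

end Pool.Agent.Results.MP_38e169_lc.Perfect
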